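import Pool.Agent.W788.NW.Stm

/-!
# Project NW: shape of the terminal functionals
-/

namespace Pool.Agent.W576.NW

open Finset Pool.Agent.W788.NV Pool.Agent.W788.NW

theorem rfp_ (h : MK) (h1 : S_IN) (h2 : S_TOT) : S_RFP := by
  intro V _ _ G q θ hq hθ0 hθ1 hd a b k z t ht hk
  have hm := (h2 V G q θ hq hθ0 hθ1 hd).1
  have hs : ∀ e, 0 ≤ srate G q θ e := by
    intro e
    cases e with
    | inl e => exact hm e
    | inr w => exact hm (Sum.inr w)
  refine ⟨fun v y => sx G q θ a b t (fun p => hit (k p.1) y p.2) (v, id), ?_, ?_⟩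
  · intro v y
    have h3 := h.mono (V × Mp V q) _ (srate G q θ) (sm (V := V) a b) (fun _ => (0 : ℝ))
      (fun p => hit (k p.1) y p.2) (v, id) t hs ht (by
        intro p
        unfold hit
        apply Finset.sum_nonneg
        intro x _
        split_ifs
        · exact hk _ _
        · exact le_refl _)
    rw [h.cst] at h3
    exact h3
  · rintro ⟨v, Ψ⟩
    have h3 := h1 (V × Mp V q) (V × Mp V q) _ (srate G q θ) (sm (V := V) a b) (sm (V := V) a b)
      (fun p => (p.1, fun x => Ψ (p.2 x))) (by
        intro e p
        cases e with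
        | inl e =>
          simp only [sm]
          split_ifs <;> rfl
        | inr w =>
          simp only [sm]
          split_ifs <;> rfl) (fun p => hit (k p.1) z p.2) (v, id) t
    have h4 : (fun p : V × Mp V q => hit (k p.1) z (fun x => Ψ (p.2 x))) =
        fun p => ∑ y, (if Ψ y = z then (1 : ℝ) else 0) * hit (k p.1) y p.2 := by
      funext p
      unfold hit
      simp only [Finset.mul_sum]
      rw [Finset.sum_comm]
      apply Finset.sum_congr rfl
      intro x _
      rw [Finset.sum_eq_single (p.2 x)]
      · simp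
      · intro y _ hy
        rw [if_neg (fun h' : p.2 x = y => hy h'.symm)]
        simp
      · intro hx
        exact absurd (Finset.mem_univ _) hx
    have h5 := h.lin (V × Mp V q) _ (V → Fin q) (srate G q θ) (sm (V := V) a b)
      (fun y => if Ψ y = z then (1 : ℝ) else 0) (fun y p => hit (k p.1) y p.2) (v, id) t
    simp only [] at h3
    rw [h4, h5] at h3
    show sg (srate G q θ) (sm (V := V) a b) t (fun p => hit (k p.1) z p.2) (v, Ψ) = _
    have h6 : ((v, fun x => Ψ (id x)) : V × Mp V q) = (v, Ψ) := rfl
    rw [h6] at h3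
    rw [← h3]
    unfold hit sx
    apply Finset.sum_congr rfl
    intro y _
    split_ifs <;> simp

end Pool.Agent.W576.NW
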